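import Mathlib
import Pool.Agent.R443.QCg3

/-!
MP_8a5308_nt, Q1 and Q2: for every positive integer `n` the polynomial `F_n(q)` is divisible in
`ℤ[q]` by the Gaussian binomial coefficients `[2n choose n]` and `[3n choose n]`.
-/

namespace Pool.Agent.Results.MP_8a5308_nt.GaussDvd

open Polynomial Finset

/-- The product `(a;q)_n`. -/
noncomputable def poch (a q : ℤ[X]) (n : ℕ) : ℤ[X] := ∏ j ∈ range n, (1 - a * q ^ j)

/-- The properties of the problem's data: `G m j` are the Gaussian binomial coefficients, `R n k`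
the factors `R_{n,k}(q)` and `F n` the sums `F_n(q)`, all in `ℤ[q]` with `q = X`. -/
structure Data (G R : ℕ → ℕ → ℤ[X]) (F : ℕ → ℤ[X]) : Prop where
  gauss : ∀ m j, j ≤ m → G m j * (poch X X j * poch X X (m - j)) = poch X X m
  factor : ∀ n k, k ≤ n → R n k * (poch (-X) X k ^ 4 * poch (-X) X (2 * k) ^ 2 *
      (poch (X ^ 2) (X ^ 2) n * poch (X ^ 6) (X ^ 6) k) ^ 2)
      = poch (-X) X n ^ 4 * poch (-X) X (2 * n) ^ 2 *
        (poch (X ^ 2) (X ^ 2) k * poch (X ^ 6) (X ^ 6) n) ^ 2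
  sum : ∀ n, F n = ∑ k ∈ range (n + 1), (∑ i ∈ range (8 * k + 1), X ^ i) * X ^ (2 * k ^ 2) *
    G (4 * k) (2 * k) * G (2 * k) k ^ 2 * R n k

lemma poch_ne (a q : ℤ[X]) (n : ℕ) (h : ∀ j, a * q ^ j ≠ 1) : poch a q n ≠ 0 := by
  unfold poch
  rw [prod_ne_zero_iff]
  intro j _ h0
  exact h j (sub_eq_zero.mp h0).symm

lemma coeff0 (a q : ℤ[X]) (j : ℕ) (ha : a.coeff 0 = 0) : a * q ^ j ≠ 1 := by
  intro h
  have h1 := congrArg (fun f => coeff f 0) h
  simp only [mul_coeff_zero, ha, coeff_one_zero] at h1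
  omega

lemma poch_ne' (a q : ℤ[X]) (n : ℕ) (ha : a.coeff 0 = 0) : poch a q n ≠ 0 :=
  poch_ne a q n (fun j => coeff0 a q j ha)

/-- The data exist. -/
theorem data_exists : ∃ (G R : ℕ → ℕ → ℤ[X]) (F : ℕ → ℤ[X]), Data G R F := by
  refine ⟨Pool.Agent.R443.QDel.gauss X, Pool.Agent.R443.QCg.Rk X, Pool.Agent.R443.QCg.F X, ?_, ?_, ?_⟩
  · intro m j h
    have h1 := Pool.Agent.R443.QCg.gauss_qf (R := ℤ) m j h
    have e : ∀ n : ℕ, poch X X n = (-1) ^ n * Pool.Agent.R443.QCg.qf ℤ n := by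
      intro n
      have : ((-1 : ℤ[X])) ^ n = ∏ _i ∈ range n, (-1 : ℤ[X]) := by
        rw [prod_const, card_range]
      unfold poch Pool.Agent.R443.QCg.qf
      rw [this, ← prod_mul_distrib]
      apply prod_congr rfl
      intro i _
      ring
    have hs : (-1 : ℤ[X]) ^ j * (-1) ^ (m - j) = (-1) ^ m := by
      rw [← pow_add]
      congr 1
      omega
    rw [e, e, e]
    linear_combination (-1) ^ m * h1
      + (Pool.Agent.R443.QDel.gauss X m j * Pool.Agent.R443.QCg.qf ℤ j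
        * Pool.Agent.R443.QCg.qf ℤ (m - j)) * hs
  · intro n k h
    exact Pool.Agent.R443.QCg.Rk_spec (X : ℤ[X]) n k h
  · intro n
    rfl

/-- The data are unique where they matter. -/
theorem data_unique {G R G' R' : ℕ → ℕ → ℤ[X]} {F F' : ℕ → ℤ[X]} (h : Data G R F)
    (h' : Data G' R' F') :
    (∀ m j, j ≤ m → G m j = G' m j) ∧ (∀ n k, k ≤ n → R n k = R' n k) ∧ ∀ n, F n = F' n := by
  have hG : ∀ m j, j ≤ m → G m j = G' m j := by
    intro m j hj
    have h1 := h.gauss m j hj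
    rw [← h'.gauss m j hj] at h1
    have hX : (X : ℤ[X]).coeff 0 = 0 := by simp
    exact mul_right_cancel₀ (mul_ne_zero (poch_ne' X X j hX) (poch_ne' X X (m - j) hX)) h1
  have hR : ∀ n k, k ≤ n → R n k = R' n k := by
    intro n k hk
    have h1 := h.factor n k hk
    rw [← h'.factor n k hk] at h1
    have hX : (-X : ℤ[X]).coeff 0 = 0 := by simp
    have hX2 : (X ^ 2 : ℤ[X]).coeff 0 = 0 := by simp
    have hX6 : (X ^ 6 : ℤ[X]).coeff 0 = 0 := by simp
    refine mul_right_cancel₀ (mul_ne_zero (mul_ne_zero (pow_ne_zero 4 (poch_ne' (-X) X k hX))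
      (pow_ne_zero 2 (poch_ne' (-X) X (2 * k) hX))) (pow_ne_zero 2 (mul_ne_zero
        (poch_ne' (X ^ 2) (X ^ 2) n hX2) (poch_ne' (X ^ 6) (X ^ 6) k hX6)))) h1
  refine ⟨hG, hR, ?_⟩
  intro n
  rw [h.sum, h'.sum]
  apply sum_congr rfl
  intro k hk
  rw [mem_range] at hk
  rw [hG (4 * k) (2 * k) (by omega), hG (2 * k) k (by omega), hR n k (by omega)]

/-- Q1 and Q2, both affirmative. -/
theorem result : (∃ (G R : ℕ → ℕ → ℤ[X]) (F : ℕ → ℤ[X]), Data G R F) ∧
    ∀ (G R : ℕ → ℕ → ℤ[X]) (F : ℕ → ℤ[X]), Data G R F →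
      ∀ n : ℕ, 1 ≤ n → G (2 * n) n ∣ F n ∧ G (3 * n) n ∣ F n := by
  refine ⟨data_exists, ?_⟩
  intro G R F h n _
  have h0 : Data (Pool.Agent.R443.QDel.gauss X) (Pool.Agent.R443.QCg.Rk X)
      (Pool.Agent.R443.QCg.F X) := by
    refine ⟨?_, ?_, ?_⟩
    · intro m j h
      have h1 := Pool.Agent.R443.QCg.gauss_qf (R := ℤ) m j h
      have e : ∀ n : ℕ, poch X X n = (-1) ^ n * Pool.Agent.R443.QCg.qf ℤ n := by
        intro n
        have : ((-1 : ℤ[X])) ^ n = ∏ _i ∈ range n, (-1 : ℤ[X]) := by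
          rw [prod_const, card_range]
        unfold poch Pool.Agent.R443.QCg.qf
        rw [this, ← prod_mul_distrib]
        apply prod_congr rfl
        intro i _
        ring
      have hs : (-1 : ℤ[X]) ^ j * (-1) ^ (m - j) = (-1) ^ m := by
        rw [← pow_add]
        congr 1
        omega
      rw [e, e, e]
      linear_combination (-1) ^ m * h1
        + (Pool.Agent.R443.QDel.gauss X m j * Pool.Agent.R443.QCg.qf ℤ j
          * Pool.Agent.R443.QCg.qf ℤ (m - j)) * hs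
    · intro n k h
      exact Pool.Agent.R443.QCg.Rk_spec (X : ℤ[X]) n k h
    · intro n
      rfl
  obtain ⟨hG, _, hF⟩ := data_unique h h0
  rw [hG (2 * n) n (by omega), hG (3 * n) n (by omega), hF]
  exact ⟨Pool.Agent.R443.QCg.dvd2 n, Pool.Agent.R443.QCg.dvd3 n⟩

end Pool.Agent.Results.MP_8a5308_nt.GaussDvd
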